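import Mathlib
import Pool.Agent.Results.MP_1fec7a_co.DisproofQ1

set_option autoImplicit false

namespace Pool.Agent.Results.MP_1fec7a_co.DisproofQ2

open SimpleGraph Pool.Agent.Results.MP_1fec7a_co.DisproofQ1

/-- `G` is clique partitioned: two different maximal cliques have at most one common vertex. -/
def CliquePartitioned {V : Type} (G : SimpleGraph V) : Prop :=
  ∀ S T : Set V, Maximal G.IsClique S → Maximal G.IsClique T → S ≠ T → (S ∩ T).Subsingleton

/-! ### The graph: the line graph of the cube with one subdivided edge -/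

/-- The hyperedges: the nine vertices of the cube with a subdivided edge, each given as the set of
the edges at it. -/
def E : Fin 9 → Finset (Fin 13) :=
  ![{0, 4, 9}, {1, 2, 10}, {2, 3, 11}, {3, 4, 12}, {5, 8, 9}, {5, 6, 10}, {6, 7, 11}, {7, 8, 12},
    {0, 1}]

/-- The line graph of the cube with a subdivided edge. -/
def G : SimpleGraph (Fin 13) where
  Adj u v := u ≠ v ∧ ∃ i, u ∈ E i ∧ v ∈ E i
  symm := ⟨fun _ _ h => ⟨h.1.symm, h.2.imp fun _ h => ⟨h.2, h.1⟩⟩⟩
  loopless := ⟨fun _ h => h.1 rfl⟩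

instance : DecidableRel G.Adj := fun u v =>
  inferInstanceAs (Decidable (u ≠ v ∧ ∃ i, u ∈ E i ∧ v ∈ E i))

/-! ### Clique number, cliques -/

lemma no_diamond : ∀ u v x y : Fin 13, G.Adj u v → G.Adj x u → G.Adj x v → G.Adj y u → G.Adj y v →
    x ≠ y → G.Adj x y := by
  decide +kernel

theorem cliquePartitioned : CliquePartitioned G := by
  intro S T hS hT hne u hu v hv
  by_contra huv
  have h1 : ¬ S ⊆ T := fun h => hne (subset_antisymm h (hS.2 hT.1 h))
  obtain ⟨x, hxS, hxT⟩ := Set.not_subset.mp h1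
  have h2 : ∃ y ∈ T, y ≠ x ∧ ¬ G.Adj x y := by
    by_contra hcon
    push Not at hcon
    apply hxT
    have h3 : G.IsClique (insert x T) :=
      SimpleGraph.isClique_insert.mpr ⟨hT.1, fun b hb hxb => hcon b hb hxb.symm⟩
    exact hT.2 h3 (Set.subset_insert x T) (Set.mem_insert x T)
  obtain ⟨y, hyT, hyx, hxy⟩ := h2
  have hxu : x ≠ u := fun e => hxT (e ▸ hu.2)
  have hxv : x ≠ v := fun e => hxT (e ▸ hv.2)
  have a1 := hS.1 hxS hu.1 hxu
  have a2 := hS.1 hxS hv.1 hxv
  have hyu : y ≠ u := fun e => hxy (e ▸ a1)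
  have hyv : y ≠ v := fun e => hxy (e ▸ a2)
  exact hxy (no_diamond u v x y (hS.1 hu.1 hv.1 huv) a1 a2 (hT.1 hyT hu.2 hyu)
    (hT.1 hyT hv.2 hyv) hyx.symm)

lemma no_four : ∀ a b : Fin 13, G.Adj a b → ∀ c, G.Adj a c → G.Adj b c → ∀ d, G.Adj a d →
    G.Adj b d → ¬ G.Adj c d := by
  decide +kernel

theorem cliqueNum_le : G.cliqueNum ≤ 3 := by
  have hfree : G.CliqueFree 4 := by
    intro s hs
    obtain ⟨a, t, hat, hst, ht⟩ := Finset.card_eq_succ.mp hs.card_eq
    obtain ⟨b, c, d, hbc, hbd, hcd, rfl⟩ := Finset.card_eq_three.mp ht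
    have hcl : ∀ u v, u ∈ s → v ∈ s → u ≠ v → G.Adj u v := fun u v hu hv h =>
      hs.isClique (by exact_mod_cast hu) (by exact_mod_cast hv) h
    subst hst
    simp only [Finset.mem_insert, Finset.mem_singleton, not_or] at hat
    exact no_four a b (hcl _ _ (by simp) (by simp) hat.1) c (hcl _ _ (by simp) (by simp) hat.2.1)
      (hcl _ _ (by simp) (by simp) hbc) d (hcl _ _ (by simp) (by simp) hat.2.2)
      (hcl _ _ (by simp) (by simp) hbd) (hcl _ _ (by simp) (by simp) hcd)
  obtain ⟨s, hs⟩ := G.exists_isNClique_cliqueNum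
  by_contra hcon
  push Not at hcon
  exact (hfree.mono hcon) s hs

/-! ### The chromatic number -/

lemma three_colours : ∀ a b c x : Fin 3, a ≠ b → b ≠ c → a ≠ c →
    (if a = x then 1 else 0) + (if b = x then 1 else 0) + (if c = x then 1 else 0) = 1 := by
  decide

theorem not_colorable : ¬ G.Colorable 3 := by
  rintro ⟨c⟩
  have hne : ∀ u v, G.Adj u v → c u ≠ c v := fun u v h => c.valid h
  have key : ∀ u v w, G.Adj u v → G.Adj v w → G.Adj u w →
      (if c u = c 0 then 1 else 0) + (if c v = c 0 then 1 else 0) +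
        (if c w = c 0 then 1 else 0) = 1 := fun u v w h1 h2 h3 =>
    three_colours _ _ _ _ (hne _ _ h1) (hne _ _ h2) (hne _ _ h3)
  have e0 := key 0 4 9 (by decide) (by decide) (by decide)
  have e1 := key 1 2 10 (by decide) (by decide) (by decide)
  have e2 := key 2 3 11 (by decide) (by decide) (by decide)
  have e3 := key 3 4 12 (by decide) (by decide) (by decide)
  have e4 := key 5 8 9 (by decide) (by decide) (by decide)
  have e5 := key 5 6 10 (by decide) (by decide) (by decide)
  have e6 := key 6 7 11 (by decide) (by decide) (by decide)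
  have e7 := key 7 8 12 (by decide) (by decide) (by decide)
  have e8 : (if c 1 = c 0 then 1 else 0) = 0 := if_neg (hne 1 0 (by decide))
  have e9 : (if c 0 = c 0 then 1 else 0) = 1 := if_pos rfl
  generalize (if c 0 = c 0 then 1 else 0) = x0 at *
  generalize (if c 1 = c 0 then 1 else 0) = x1 at *
  generalize (if c 2 = c 0 then 1 else 0) = x2 at *
  generalize (if c 3 = c 0 then 1 else 0) = x3 at *
  generalize (if c 4 = c 0 then 1 else 0) = x4 at *
  generalize (if c 5 = c 0 then 1 else 0) = x5 at *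
  generalize (if c 6 = c 0 then 1 else 0) = x6 at *
  generalize (if c 7 = c 0 then 1 else 0) = x7 at *
  generalize (if c 8 = c 0 then 1 else 0) = x8 at *
  generalize (if c 9 = c 0 then 1 else 0) = x9 at *
  generalize (if c 10 = c 0 then 1 else 0) = x10 at *
  generalize (if c 11 = c 0 then 1 else 0) = x11 at *
  generalize (if c 12 = c 0 then 1 else 0) = x12 at *
  omega

theorem chromatic_ge : 4 ≤ ENat.toNat G.chromaticNumber := by
  by_contra h
  push Not at h
  have h1 := G.colorable_chromaticNumber_of_fintype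
  exact not_colorable (h1.mono (by omega))

/-! ### The planar embedding of the incidence graph -/

/-- The vertex of the `k`-th incidence. -/
def vt : Fin 26 → Fin 13 :=
  ![0, 0, 1, 1, 2, 2, 3, 3, 4, 4, 5, 5, 6, 6, 7, 7, 8, 8, 9, 9, 10, 10, 11, 11, 12, 12]
/-- The hyperedge of the `k`-th incidence. -/
def hd : Fin 26 → Fin 9 :=
  ![0, 8, 8, 1, 1, 2, 2, 3, 3, 0, 4, 5, 5, 6, 6, 7, 7, 4, 0, 4, 1, 5, 2, 6, 3, 7]
/-- The other incidence of the same vertex. -/
def ot : Fin 26 → Fin 26 :=
  ![1, 0, 3, 2, 5, 4, 7, 6, 9, 8, 11, 10, 13, 12, 15, 14, 17, 16, 19, 18, 21, 20, 23, 22, 25, 24]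
/-- The next incidence around the same hyperedge. -/
def rt : Fin 26 → Fin 26 :=
  ![18, 2, 1, 4, 20, 6, 22, 8, 24, 0, 17, 21, 11, 23, 13, 25, 15, 19, 9, 10, 3, 12, 5, 14, 7, 16]
/-- The previous incidence around the same hyperedge. -/
def rt' : Fin 26 → Fin 26 :=
  ![9, 2, 1, 20, 3, 22, 5, 24, 7, 18, 19, 12, 21, 14, 23, 16, 25, 10, 0, 17, 4, 11, 6, 13, 8, 15]
/-- The face of an incidence. -/
def lb : Fin 26 → Fin 6 :=
  ![0, 1, 0, 1, 0, 2, 0, 3, 0, 4, 1, 5, 2, 5, 3, 5, 4, 5, 1, 4, 2, 1, 3, 2, 4, 3]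

lemma mem_iff : ∀ v i, v ∈ E i ↔ ∃ k, vt k = v ∧ hd k = i := by decide +kernel
lemma inc_inj : ∀ k l, vt k = vt l → hd k = hd l → k = l := by decide +kernel
lemma ot_ot : ∀ k, ot (ot k) = k := by decide
lemma vt_ot : ∀ k, vt (ot k) = vt k := by decide
lemma ot_all : ∀ k l, vt k = vt l → l = k ∨ l = ot k := by decide +kernel
lemma rt_rt' : ∀ k, rt (rt' k) = k := by decide
lemma rt'_rt : ∀ k, rt' (rt k) = k := by decide
lemma hd_rt : ∀ k, hd (rt k) = hd k := by decide
lemma rt_all : ∀ k l, hd k = hd l → l = k ∨ l = rt k ∨ l = rt (rt k) := by decide +kernel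
lemma lb_inv : ∀ k, lb (rt (ot k)) = lb k := by decide
lemma lb_surj : ∀ f, ∃ k, lb k = f := by decide

/-- The dart of the incidence graph that belongs to the `k`-th incidence: it leaves the vertex if
`b` is false and the hyperedge if `b` is true. -/
def dart (x : Bool × Fin 26) : (incidence E).Dart :=
  match x with
  | (false, k) => ⟨(Sum.inl (vt k), Sum.inr (hd k)),
      Or.inl ⟨vt k, hd k, (mem_iff _ _).mpr ⟨k, rfl, rfl⟩, rfl, rfl⟩⟩
  | (true, k) => ⟨(Sum.inr (hd k), Sum.inl (vt k)),
      Or.inr ⟨vt k, hd k, (mem_iff _ _).mpr ⟨k, rfl, rfl⟩, rfl, rfl⟩⟩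

lemma dart_bijective : Function.Bijective dart := by
  constructor
  · rintro ⟨b, k⟩ ⟨b', k'⟩ h
    have h' := congrArg Dart.toProd h
    cases b <;> cases b' <;> simp only [dart, Prod.mk.injEq, Sum.inl.injEq,
      Sum.inr.injEq, reduceCtorEq, false_and] at h'
    · rw [inc_inj k k' h'.1 h'.2]
    · rw [inc_inj k k' h'.2 h'.1]
  · rintro ⟨⟨a, b⟩, h⟩
    rcases h with ⟨v, i, hm, ha, hb⟩ | ⟨v, i, hm, ha, hb⟩
    · obtain ⟨k, rfl, rfl⟩ := (mem_iff v i).mp hm
      refine ⟨(false, k), ?_⟩
      simp only at ha hb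
      subst ha hb
      rfl
    · obtain ⟨k, rfl, rfl⟩ := (mem_iff v i).mp hm
      refine ⟨(true, k), ?_⟩
      simp only at ha hb
      subst ha hb
      rfl

/-- Darts as pairs. -/
noncomputable def dq : Bool × Fin 26 ≃ (incidence E).Dart := Equiv.ofBijective dart dart_bijective

/-- The rotation on pairs. -/
def nx : Equiv.Perm (Bool × Fin 26) where
  toFun x := match x with
    | (false, k) => (false, ot k)
    | (true, k) => (true, rt k)
  invFun x := match x with
    | (false, k) => (false, ot k)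
    | (true, k) => (true, rt' k)
  left_inv := by
    rintro ⟨b, k⟩
    cases b
    · simp only [ot_ot]
    · simp only [rt'_rt]
  right_inv := by
    rintro ⟨b, k⟩
    cases b
    · simp only [ot_ot]
    · simp only [rt_rt']

lemma nx_false (k : Fin 26) : nx (false, k) = (false, ot k) := rfl
lemma nx_true (k : Fin 26) : nx (true, k) = (true, rt k) := rfl

/-- The rotation system. -/
noncomputable def R : Rotation (incidence E) where
  next := (dq.symm.trans nx).trans dq
  fst_next := by
    intro d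
    obtain ⟨⟨b, k⟩, rfl⟩ := dq.surjective d
    simp only [Equiv.trans_apply, Equiv.symm_apply_apply]
    cases b
    · rw [nx_false]
      change Sum.inl (vt (ot k)) = Sum.inl (vt k)
      rw [vt_ot]
    · rw [nx_true]
      change Sum.inr (hd (rt k)) = Sum.inr (hd k)
      rw [hd_rt]
  cyclic := by
    intro d e h
    obtain ⟨⟨b, k⟩, rfl⟩ := dq.surjective d
    obtain ⟨⟨b', k'⟩, rfl⟩ := dq.surjective e
    have step : ∀ x, ((dq.symm.trans nx).trans dq) (dq x) = dq (nx x) := by
      intro x
      simp only [Equiv.trans_apply, Equiv.symm_apply_apply]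
    cases b <;> cases b'
    · have h' : vt k = vt k' := Sum.inl.inj h
      rcases ot_all k k' h' with rfl | rfl
      · exact Equiv.Perm.SameCycle.refl _ _
      · refine ⟨1, ?_⟩
        rw [zpow_one, step, nx_false]
    · exact absurd h (by
        change ¬ (Sum.inl (vt k) = Sum.inr (hd k'))
        simp)
    · exact absurd h (by
        change ¬ (Sum.inr (hd k) = Sum.inl (vt k'))
        simp)
    · have h' : hd k = hd k' := Sum.inr.inj h
      rcases rt_all k k' h' with rfl | rfl | rfl
      · exact Equiv.Perm.SameCycle.refl _ _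
      · refine ⟨1, ?_⟩
        rw [zpow_one, step, nx_true]
      · refine ⟨2, ?_⟩
        rw [zpow_ofNat, pow_two, Equiv.Perm.mul_apply, step, step, nx_true, nx_true]

/-- The face of a dart. -/
noncomputable def lab (d : (incidence E).Dart) : Fin 6 :=
  match dq.symm d with
  | (false, k) => lb (rt k)
  | (true, k) => lb k

lemma lab_false (k : Fin 26) : lab (dq (false, k)) = lb (rt k) := by
  unfold lab
  rw [Equiv.symm_apply_apply]

lemma lab_true (k : Fin 26) : lab (dq (true, k)) = lb k := by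
  unfold lab
  rw [Equiv.symm_apply_apply]

lemma face_false (k : Fin 26) : R.face (dq (false, k)) = dq (true, rt k) := by
  have h1 : (reversal (incidence E)) (dq (false, k)) = dq (true, k) := rfl
  change R.next ((reversal (incidence E)) (dq (false, k))) = _
  rw [h1]
  change dq (nx (dq.symm (dq (true, k)))) = _
  rw [Equiv.symm_apply_apply, nx_true]

lemma face_true (k : Fin 26) : R.face (dq (true, k)) = dq (false, ot k) := by
  have h1 : (reversal (incidence E)) (dq (true, k)) = dq (false, k) := rfl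
  change R.next ((reversal (incidence E)) (dq (true, k))) = _
  rw [h1]
  change dq (nx (dq.symm (dq (false, k)))) = _
  rw [Equiv.symm_apply_apply, nx_false]

lemma lab_face (d : (incidence E).Dart) : lab (R.face d) = lab d := by
  obtain ⟨⟨b, k⟩, rfl⟩ := dq.surjective d
  cases b
  · rw [face_false, lab_true, lab_false]
  · rw [face_true, lab_false, lab_true, lb_inv]

lemma lab_pow (n : ℕ) (d : (incidence E).Dart) : lab ((R.face ^ n) d) = lab d := by
  induction n with
  | zero => rfl
  | succ n ih => rw [pow_succ', Equiv.Perm.mul_apply, lab_face, ih]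

lemma lab_same {d e : (incidence E).Dart} (h : R.face.SameCycle d e) : lab d = lab e := by
  obtain ⟨n, hn⟩ := h
  obtain ⟨m, rfl | rfl⟩ := Int.eq_nat_or_neg n
  · rw [zpow_natCast] at hn
    rw [← hn, lab_pow]
  · rw [zpow_neg, zpow_natCast] at hn
    have : d = (R.face ^ m) e := by
      rw [← hn, ← Equiv.Perm.mul_apply, mul_inv_cancel, Equiv.Perm.one_apply]
    rw [this, lab_pow]

theorem faces_ge : 6 ≤ R.faces := by
  have hfin : Finite (incidence E).Dart := Finite.of_injective _ Dart.toProd_injective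
  unfold Rotation.faces
  let F : Quotient (Equiv.Perm.SameCycle.setoid R.face) → Fin 6 :=
    Quotient.lift lab (fun _ _ h => lab_same h)
  have hF : Function.Surjective F := by
    intro f
    obtain ⟨k, hk⟩ := lb_surj f
    refine ⟨Quotient.mk _ (dq (true, k)), ?_⟩
    change lab (dq (true, k)) = f
    rw [lab_true, hk]
  have := Nat.card_le_card_of_surjective F hF
  rw [Nat.card_eq_fintype_card (α := Fin 6), Fintype.card_fin] at this
  omega

/-- The parent of a hyperedge. -/
def pa : Fin 9 → Fin 9 := ![0, 8, 3, 0, 0, 4, 2, 3, 0]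
/-- The depth of a hyperedge. -/
def dp : Fin 9 → ℕ := ![0, 2, 2, 1, 1, 2, 3, 2, 1]
/-- A common vertex with the parent. -/
def sh : Fin 9 → Fin 13 := ![0, 1, 3, 4, 9, 5, 11, 12, 0]
/-- A hyperedge containing a given vertex. -/
def fh : Fin 13 → Fin 9 := ![0, 1, 1, 2, 0, 4, 5, 6, 4, 0, 1, 2, 3]

lemma pa_spec : ∀ i, i ≠ 0 → sh i ∈ E i ∧ sh i ∈ E (pa i) ∧ dp (pa i) < dp i := by decide
lemma fh_spec : ∀ v, v ∈ E (fh v) := by decide

lemma adj_vi {v : Fin 13} {i : Fin 9} (h : v ∈ E i) :
    (incidence E).Adj (Sum.inl v) (Sum.inr i) := Or.inl ⟨v, i, h, rfl, rfl⟩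

lemma reach_i : ∀ (n : ℕ) (i : Fin 9), dp i = n →
    (incidence E).Reachable (Sum.inr i) (Sum.inr 0) := by
  intro n
  induction n using Nat.strong_induction_on with
  | _ n ih =>
    intro i hi
    by_cases h0 : i = 0
    · rw [h0]
    · obtain ⟨h1, h2, h3⟩ := pa_spec i h0
      exact ((adj_vi h1).symm.reachable.trans (adj_vi h2).reachable).trans
        (ih _ (hi ▸ h3) _ rfl)

lemma reach : ∀ x, (incidence E).Reachable x (Sum.inr 0) := by
  rintro (v | i)
  · exact (adj_vi (fh_spec v)).reachable.trans (reach_i _ _ rfl)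
  · exact reach_i _ _ rfl

lemma card_comp : Nat.card (incidence E).ConnectedComponent = 1 := by
  have hpre : (incidence E).Preconnected := fun x y => (reach x).trans (reach y).symm
  have h1 := hpre.subsingleton_connectedComponent
  have h2 : Nonempty (incidence E).ConnectedComponent :=
    ⟨(incidence E).connectedComponentMk (Sum.inr 0)⟩
  exact Nat.card_eq_one_iff_unique.mpr ⟨inferInstance, inferInstance⟩

lemma card_edge : Nat.card (incidence E).edgeSet = 26 := by
  classical
  have h1 : Fintype.card (incidence E).Dart = 52 := by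
    rw [Fintype.card_congr dq.symm]
    rfl
  have h2 := (incidence E).dart_card_eq_twice_card_edges
  rw [h1] at h2
  rw [Nat.card_eq_fintype_card, ← SimpleGraph.edgeFinset_card]
  omega

theorem planar : EmbedsInGenus (incidence E) 0 := by
  refine ⟨R, ?_⟩
  have h1 := faces_ge
  have h2 : Nat.card (Fin 13 ⊕ Fin 9) = 22 := by
    rw [Nat.card_eq_fintype_card]
    rfl
  rw [card_comp, card_edge, h2]
  omega

lemma mult_table : ∀ u v : Fin 13, u ≠ v →
    (G.Adj u v → (Finset.univ.filter (fun i => u ∈ E i ∧ v ∈ E i)).card = 1) ∧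
    (¬ G.Adj u v → (Finset.univ.filter (fun i => u ∈ E i ∧ v ∈ E i)).card = 0) := by
  decide +kernel

theorem adjacencyIs : AdjacencyIs E G := by
  intro u v huv
  unfold mult
  rw [Nat.card_eq_fintype_card, Fintype.card_subtype]
  exact mult_table u v huv

theorem reducedGenus : HasReducedGenus G 0 :=
  ⟨⟨Fin 9, inferInstance, E, adjacencyIs, planar, fun _ _ => Nat.zero_le _⟩,
    fun _ _ => Nat.zero_le _⟩

/-- There is a clique partitioned graph `G` on 13 vertices of reduced genus `0` with
`max (H(0) - 1) (ω(G)) < χ(G)`. -/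
theorem result : ∃ G : SimpleGraph (Fin 13), CliquePartitioned G ∧ HasReducedGenus G 0 ∧
    max (heawood 0 - 1) (G.cliqueNum : ℝ) < (ENat.toNat G.chromaticNumber : ℝ) := by
  refine ⟨G, cliquePartitioned, reducedGenus, ?_⟩
  have h1 : (4 : ℝ) ≤ (ENat.toNat G.chromaticNumber : ℝ) := by
    exact_mod_cast chromatic_ge
  have h2 : (G.cliqueNum : ℝ) ≤ 3 := by exact_mod_cast cliqueNum_le
  have h3 : heawood 0 - 1 = 3 := by
    unfold heawood
    norm_num
  rw [h3]
  exact max_lt (by linarith) (by linarith)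

end Pool.Agent.Results.MP_1fec7a_co.DisproofQ2
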